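import Mathlib
import Pool.Agent.Lib.MP_c880a5_gt.Defs
import Pool.Agent.Lib.MP_c880a5_gt.Proof

/-!
For every discrete space `D` (in particular for every uncountable one) the subspace
`F_4(C ⊕ D)` of the free topological group on `C ⊕ D` is a `k_R`-space, where `C` is the
convergent sequence with its limit point. This answers the question positively.
-/

universe u

namespace Pool.Agent.Results.MP_c880a5_gt.KRSpaceF4

open Pool.Agent.Lib.MP_c880a5_gt

/-- Sanity check (non-vacuity): the free topological group on `C ⊕ D` exists. -/
theorem exists_free (D : Type u) [TopologicalSpace D] [DiscreteTopology D] :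
    ∃ (F : Type u) (_ : Group F) (_ : TopologicalSpace F) (i : convSeq ⊕ D → F),
      IsFreeTopologicalGroup i :=
  exists_isFreeTopologicalGroup D

/-- For every discrete space `D`, `F_4(C ⊕ D)` is a `k_R`-space. -/
theorem result :
    ∀ (D : Type u) [TopologicalSpace D] [DiscreteTopology D]
      (F : Type u) [Group F] [TopologicalSpace F] (i : convSeq ⊕ D → F),
      IsFreeTopologicalGroup i → IsKRSpace (wordsLE i 4) := by
  intro D _ _ F _ _ i h
  exact isKRSpace_wordsLE h

end Pool.Agent.Results.MP_c880a5_gt.KRSpaceF4
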